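import Pool.Agent.AED.Defs

/-!
# Oriented trees of bounded degree without long directed paths in tournaments: the stages

The step lemma allows one to lower the factor `K` of the main statement `EE` by a factor `1 + γ`, at the price of a larger
additive constant. After finitely many stages the factor is `1`.
-/

namespace AED

open Finset AE15
open scoped Classical

/-- abstract stages: `P K C t` = the object `t` of size `sz t ≥ 1` is embedded in every set with `K * sz t + C` elements -/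
theorem stages_abs {τ : Type*} (sz : τ → ℕ) (hsz : ∀ t, 1 ≤ sz t) (P : ℝ → ℝ → τ → Prop) (γ : ℝ) (hγ : 0 < γ) (n₀ A : ℕ)
    (hstep : ∀ (K C K' C' : ℝ), 0 ≤ K → 1 ≤ K' → K ≤ (1 + γ) * K' → 0 ≤ C → 0 ≤ C' → ∀ t,
      (∀ t', sz t' < sz t → P K C t' ∧ P K' C' t') → n₀ ≤ K' * sz t + C' → A * C ≤ K' * sz t + C' → P K' C' t) :
    ∃ C : ℕ, ∀ t, P 1 C t := by
  -- one stage
  have one : ∀ K C K' C' : ℝ, 0 ≤ K → 1 ≤ K' → K ≤ (1 + γ) * K' → 0 ≤ C → 0 ≤ C' →
      (∀ t, (n₀ : ℝ) ≤ K' * sz t + C') → A * C ≤ C' → ((∀ t, P K C t) ∨ (K = K' ∧ C = C')) → ∀ t, P K' C' t := by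
    intro K C K' C' hK hK' hKK hC hC' hn hA hE
    have main : ∀ (m : ℕ) (t : τ), sz t = m → P K' C' t := by
      intro m
      induction m using Nat.strong_induction_on with
      | _ m ih =>
        intro t hm
        have h0 : (0 : ℝ) ≤ K' * sz t := by positivity
        refine hstep K C K' C' hK hK' hKK hC hC' t ?_ (hn t) (by linarith)
        intro t' hs
        have h1 : P K' C' t' := ih (sz t') (hm ▸ hs) t' rfl
        refine ⟨?_, h1⟩
        rcases hE with hE | ⟨rfl, rfl⟩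
        · exact hE t'
        · exact h1
    intro t
    exact main (sz t) t rfl
  have hK₀ : (1 : ℝ) ≤ max 1 (n₀ : ℝ) := le_max_left _ _
  have hn₀ : (n₀ : ℝ) ≤ max 1 (n₀ : ℝ) := le_max_right _ _
  set K₀ : ℝ := max 1 (n₀ : ℝ) with hK₀def
  have hg : (0 : ℝ) < 1 + γ := by linarith
  have key : ∀ i : ℕ, ∃ C : ℕ, ∀ t, P (max 1 (K₀ / (1 + γ) ^ i)) C t := by
    intro i
    induction i with
    | zero =>
      refine ⟨0, ?_⟩
      have e : max 1 (K₀ / (1 + γ) ^ 0) = K₀ := by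
        rw [pow_zero, div_one]
        exact max_eq_right hK₀
      rw [e]
      refine one K₀ ((0 : ℕ) : ℝ) K₀ ((0 : ℕ) : ℝ) (by linarith) hK₀ (by nlinarith) (by simp) (by simp) ?_ (by simp)
        (Or.inr ⟨rfl, rfl⟩)
      intro t
      have ht : (1 : ℝ) ≤ sz t := by exact_mod_cast hsz t
      push_cast
      nlinarith
    | succ i ih =>
      obtain ⟨C, hC⟩ := ih
      refine ⟨max n₀ (A * C), ?_⟩
      have h1 : (1 : ℝ) ≤ max 1 (K₀ / (1 + γ) ^ (i + 1)) := le_max_left _ _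
      refine one (max 1 (K₀ / (1 + γ) ^ i)) (C : ℝ) _ _ (le_trans zero_le_one (le_max_left _ _)) h1
        ?_ (Nat.cast_nonneg C) (Nat.cast_nonneg _) ?_ ?_ (Or.inl hC)
      · apply max_le
        · nlinarith
        · have h2 : K₀ / (1 + γ) ^ i = (1 + γ) * (K₀ / (1 + γ) ^ (i + 1)) := by
            rw [pow_succ]
            field_simp
          rw [h2]
          exact mul_le_mul_of_nonneg_left (le_max_right _ _) hg.le
      · intro t
        have h3 : (n₀ : ℝ) ≤ ((max n₀ (A * C) : ℕ) : ℝ) := by exact_mod_cast le_max_left _ _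
        have h4 : 0 ≤ max 1 (K₀ / (1 + γ) ^ (i + 1)) * (sz t : ℝ) := by positivity
        linarith
      · have h5 : A * C ≤ max n₀ (A * C) := le_max_right _ _
        exact_mod_cast h5
  obtain ⟨i, hi⟩ := pow_unbounded_of_one_lt K₀ (show (1 : ℝ) < 1 + γ by linarith)
  obtain ⟨C, hC⟩ := key i
  have e : max 1 (K₀ / (1 + γ) ^ i) = 1 := by
    apply max_eq_left
    rw [div_le_one (by positivity)]
    exact hi.le
  rw [e] at hC
  exact ⟨C, hC⟩

/-- the conclusion of the step lemma -/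
def StepFor (b l : ℕ) (θ q γ : ℝ) (n₀ A : ℕ) : Prop :=
  ∀ {V : Type} {R : V → V → Prop}, AE32.Tour R → ∀ (K C K' C' : ℝ), 0 ≤ K → 1 ≤ K' → K ≤ (1 + γ) * K' →
      0 ≤ C → 0 ≤ C' → ∀ (d : Bool) (j : ℕ) (c : Fd), j ≤ l → c.len ≤ b → c.Deg b → c.Run l d j →
        (∀ (d' : Bool) (j' : ℕ) (c' : Fd), j' ≤ l → c'.len ≤ b → c'.Deg b → c'.Run l d' j' → c'.size < c.size →
          EE R θ q l K C d' j' c' ∧ EE R θ q l K' C' d' j' c') →
        ∀ (X : Finset V) (N : V → Prop), K' * (c.size + 1) + C' ≤ X.card → n₀ ≤ X.card → A * C ≤ X.card →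
          St R θ q l d j X N → In R c N X

/-- stages, from the conclusion of the step lemma -/
theorem stages_of_step {b l : ℕ} {θ q γ : ℝ} {n₀ A : ℕ} (hθ : θ ≤ 1) (hγ : 0 < γ) (h : StepFor b l θ q γ n₀ A) :
    ∃ C : ℕ, ∀ {V : Type} {R : V → V → Prop}, AE32.Tour R →
      ∀ c : Fd, c.len ≤ b → c.Deg b → c.Run l true 0 → ∀ X : Finset V, c.size + 1 + C ≤ X.card →
        In R c (fun _ => True) X := by
  obtain ⟨C, hC⟩ := stages_abs (τ := {t : Bool × ℕ × Fd // t.2.1 ≤ l ∧ t.2.2.len ≤ b ∧ t.2.2.Deg b ∧ t.2.2.Run l t.1 t.2.1})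
    (fun t => t.1.2.2.size + 1) (fun t => Nat.le_add_left 1 _)
    (fun K C t => ∀ {V : Type} {R : V → V → Prop}, AE32.Tour R → EE R θ q l K C t.1.1 t.1.2.1 t.1.2.2) γ hγ n₀ A (by
      intro K C K' C' hK hK' hKK hC hC' t ih hn hA V R hT X N hX hSt
      push_cast at hn hA
      refine h hT K C K' C' hK hK' hKK hC hC' t.1.1 t.1.2.1 t.1.2.2 t.2.1 t.2.2.1 t.2.2.2.1 t.2.2.2.2 ?_ X N hX ?_ ?_ hSt
      · intro d' j' c' hj' hl' hd' hr' hs
        have h1 := ih ⟨(d', j', c'), hj', hl', hd', hr'⟩ (by simpa using hs)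
        exact ⟨h1.1 hT, h1.2 hT⟩
      · have := hn.trans hX
        exact_mod_cast this
      · exact hA.trans hX)
  refine ⟨C, ?_⟩
  intro V R hT c hl hd hr X hX
  have h1 := hC ⟨(true, 0, c), Nat.zero_le _, hl, hd, hr⟩ hT
  refine h1 X (fun _ => True) ?_ ?_
  · rw [one_mul]
    exact_mod_cast hX
  · have h2 : cand R θ true X (fun _ => True) = X := by
      ext u
      simp [cand]
    show dens θ q l true 0 * X.card ≤ ((cand R θ true X (fun _ => True)).card : ℝ)
    rw [h2]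
    unfold dens
    rw [if_pos rfl, pow_zero, mul_one]
    exact mul_le_of_le_one_left (Nat.cast_nonneg _) hθ

end AED
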