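import Pool.Agent.AE15.Trees
import Pool.Agent.AE15.Pieces

/-!
# Oriented trees of bounded degree without long directed paths in tournaments: definitions
-/

namespace AED

open Finset AE15
open scoped Classical

/-- ordered forests of oriented trees hanging on a common vertex; the flag of a tree is the direction of the arc which
joins it to the common vertex (`true`: the arc goes from the common vertex to the root of the tree) -/
inductive Fd : Type
  | nil : Fd
  | node (d : Bool) (c s : Fd) : Fd

/-- number of vertices -/
def Fd.size : Fd → ℕ
  | .nil => 0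
  | .node _ c s => c.size + s.size + 1

/-- number of trees -/
def Fd.len : Fd → ℕ
  | .nil => 0
  | .node _ _ s => s.len + 1

/-- the trees: the direction and the children forest -/
def Fd.trees : Fd → List (Bool × Fd)
  | .nil => []
  | .node d c s => (d, c) :: s.trees

/-- every vertex has at most `b` children -/
def Fd.Deg (b : ℕ) : Fd → Prop
  | .nil => True
  | .node _ c s => c.len ≤ b ∧ c.Deg b ∧ s.Deg b

/-- `Run l d j c`: `c` is the children forest of a vertex whose parent arc has direction `d` and is the `j`-th arc of its
run (maximal directed subpath of a path starting at the root), and all runs have at most `l` arcs -/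
def Fd.Run (l : ℕ) : Bool → ℕ → Fd → Prop
  | _, _, .nil => True
  | d, j, .node d' c s => ((d' = d ∧ j + 1 ≤ l ∧ Fd.Run l d (j + 1) c) ∨ (d' ≠ d ∧ Fd.Run l d' 1 c)) ∧ Fd.Run l d j s

variable {V : Type*} {R : V → V → Prop}

/-- the arc between `v` and `x` has direction `d` (`true`: from `v` to `x`) -/
def Adj (R : V → V → Prop) (d : Bool) (v x : V) : Prop := if d then R v x else R x v

/-- the trees of a list (given by the directions and the children forests) hang on `v`, disjointly, and cover `S` -/
def Emb (R : V → V → Prop) : Fd → V → Finset V → Prop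
  | .nil, _, S => S = ∅
  | .node d c s, v, S => ∃ x A B, Adj R d v x ∧ x ∉ A ∧ x ∉ B ∧ Disjoint A B ∧ S = insert x (A ∪ B) ∧
      Emb R c x A ∧ Emb R s v B

/-- the tree with children forest `c` has a copy inside `X` with its root satisfying `N` -/
def In (R : V → V → Prop) (c : Fd) (N : V → Prop) (X : Finset V) : Prop :=
  ∃ x ∈ X, ∃ A ⊆ X, x ∉ A ∧ N x ∧ Emb R c x A

/-- the density of the root set which is needed in the state `(d, j)` -/
noncomputable def dens (θ q : ℝ) (l : ℕ) (d : Bool) (j : ℕ) : ℝ := if d then θ * q ^ j else θ * q ^ (l + 1 + j)

/-- the candidates for the root: in the state `false` the root must have large out-degree -/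
noncomputable def cand (R : V → V → Prop) (θ : ℝ) (d : Bool) (X : Finset V) (N : V → Prop) : Finset V :=
  X.filter (fun u => N u ∧ (d = false → θ * X.card ≤ ((nO R X u).card : ℝ)))

/-- the state `(d, j)` is satisfied by `(X, N)` -/
def St (R : V → V → Prop) (θ q : ℝ) (l : ℕ) (d : Bool) (j : ℕ) (X : Finset V) (N : V → Prop) : Prop :=
  dens θ q l d j * X.card ≤ ((cand R θ d X N).card : ℝ)

/-- the main statement for the tree with children forest `c` in the state `(d, j)`, with `K * |T| + C` vertices -/
def EE (R : V → V → Prop) (θ q : ℝ) (l : ℕ) (K C : ℝ) (d : Bool) (j : ℕ) (c : Fd) : Prop :=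
  ∀ (X : Finset V) (N : V → Prop), K * (c.size + 1) + C ≤ X.card → St R θ q l d j X N → In R c N X

/-- the state `(d, j)` followed by the arc `d'` -/
def nxt (d : Bool) (j : ℕ) (d' : Bool) : ℕ := if d' = d then j + 1 else 1

end AED
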