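import Pool.Agent.AED.Stages
import Pool.Agent.AED.Glue

/-!
# Oriented trees of bounded degree without long directed paths in tournaments: the final theorem, from the stages
-/

namespace AED

open Finset AE15
open scoped Classical

/-- the conclusion of the stages for `(b, l)` -/
def StagesStatement (b l : ℕ) : Prop := ∃ C : ℕ, ∀ {V : Type} {R : V → V → Prop}, AE32.Tour R →
    ∀ c : Fd, c.len ≤ b → c.Deg b → c.Run l true 0 → ∀ X : Finset V, c.size + 1 + C ≤ X.card →
      In R c (fun _ => True) X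

theorem final_of_stages (hst : ∀ b l : ℕ, 1 ≤ b → 1 ≤ l → StagesStatement b l) (Δ l : ℕ) :
    ∃ C : ℕ, ∀ k n : ℕ, k + C ≤ n → ∀ R : Fin n → Fin n → Prop,
    (∀ a, ¬ R a a) → (∀ a b, a ≠ b → R a b ∨ R b a) → (∀ a b, R a b → ¬ R b a) →
    ∀ E : Fin (k + 1) → Fin (k + 1) → Prop,
      (∀ a b, E a b → ¬ E b a) →
      (SimpleGraph.fromRel E).IsTree →
      (∀ v, ((SimpleGraph.fromRel E).neighborSet v).ncard ≤ Δ) →
      (∀ p : ℕ → Fin (k + 1), ¬ ∀ i ≤ l, E (p i) (p (i + 1))) →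
      ∃ f : Fin (k + 1) → Fin n, Function.Injective f ∧ ∀ a b, E a b → R (f a) (f b) := by
  obtain ⟨C, hC⟩ := hst (max Δ 1) (max l 1) (le_max_right _ _) (le_max_right _ _)
  refine ⟨C + 1, fun k n hn R h1 h2 h3 E h4 h5 h6 h7 => ?_⟩
  have h6' : ∀ v, {w | E v w ∨ E w v}.ncard ≤ max Δ 1 := by
    intro v
    refine le_trans (le_of_eq ?_) ((h6 v).trans (le_max_left _ _))
    congr 1
    ext w
    rw [SimpleGraph.mem_neighborSet, SimpleGraph.fromRel_adj]
    constructor
    · intro h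
      refine ⟨?_, h⟩
      rintro rfl
      rcases h with h | h
      · exact h4 _ _ h h
      · exact h4 _ _ h h
    · intro h
      exact h.2
  have h7' : ∀ p : ℕ → Fin (k + 1), ¬ ∀ i ≤ max l 1, E (p i) (p (i + 1)) := by
    intro p hp
    exact h7 p fun i hi => hp i (hi.trans (le_max_left _ _))
  obtain ⟨c, hc1, hc2, hc3, hc4, hc5⟩ := glue (le_max_right _ _) h4 h5 h6' h7'
  have hT : AE32.Tour R := ⟨h1, h2, h3⟩
  have hIn := hC hT c hc2 hc3 hc4 univ (by rw [card_univ, Fintype.card_fin]; omega)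
  obtain ⟨f, hf1, -, hf3⟩ := hc5 hIn
  exact ⟨f, hf1, hf3⟩

end AED
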