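import Pool.Agent.AE15.Structure

/-!
# Hosts for trees with bounded directed paths
-/

namespace AE15

open Finset
open scoped Classical

variable {V : Type*} {R : V → V → Prop}

/-- the vertices with at least `|X| / 4` out-neighbours -/
noncomputable def hi (R : V → V → Prop) (X : Finset V) : Finset V := X.filter (fun z => X.card ≤ 4 * (nO R X z).card)

theorem mem_hi {X : Finset V} {z : V} : z ∈ hi R X ↔ z ∈ X ∧ X.card ≤ 4 * (nO R X z).card := by simp [hi]

theorem tour_rev (hT : AE32.Tour R) : AE32.Tour (fun a b => R b a) :=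
  ⟨hT.irr, fun a b h => (hT.tot a b h).symm, fun a b h => hT.asym b a h⟩

/-- few vertices of a tournament have small in-degree -/
theorem card_low' (hT : AE32.Tour R) (A : Finset V) (j : ℕ) :
    (A.filter (fun v => (nI R A v).card ≤ j)).card ≤ 2 * j + 1 := card_low (tour_rev hT) A j

theorem card_not_hi (hT : AE32.Tour R) (X : Finset V) (h4 : 4 ≤ X.card) :
    2 * (X \ hi R X).card ≤ X.card + 2 := by
  have h := card_low hT X ((X.card - 1) / 4)
  have h1 : X \ hi R X = X.filter (fun v => (nO R X v).card ≤ (X.card - 1) / 4) := by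
    ext z
    rw [mem_sdiff, mem_hi, mem_filter]
    constructor
    · rintro ⟨h1, h2⟩
      refine ⟨h1, ?_⟩
      by_contra h3
      apply h2
      refine ⟨h1, ?_⟩
      omega
    · rintro ⟨h1, h2⟩
      refine ⟨h1, fun h3 => ?_⟩
      have := h3.2
      omega
  rw [h1]
  omega

/-- **Host lemma**: a large set `S` contains a vertex with many out-neighbours (in `S`) and many in-neighbours of large
out-degree. -/
theorem hostD (hT : AE32.Tour R) {X S : Finset V} (hS : S ⊆ X) {t : ℕ} (ht : 4 * t + 2 < S.card)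
    (ht2 : 4 * t + 12 ≤ X.card) :
    ∃ v ∈ S, t ≤ (nO R S v).card ∧ t ≤ (nI R (hi R X) v).card := by
  rcases t with _ | t
  · have : S.Nonempty := by rw [← card_pos]; omega
    obtain ⟨v, hv⟩ := this
    exact ⟨v, hv, by simp, by simp⟩
  set B₁ := S.filter (fun v => (nO R S v).card ≤ t) with hB₁
  set B₂ := (hi R X).filter (fun v => (nI R (hi R X) v).card ≤ t) with hB₂
  have h1 : B₁.card ≤ 2 * t + 1 := card_low hT S t
  have h2 : B₂.card ≤ 2 * t + 1 := card_low' hT (hi R X) t
  have h3 : (S \ (B₁ ∪ B₂)).Nonempty := by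
    rw [← card_pos]
    have h4 := le_card_sdiff (B₁ ∪ B₂) S
    have h5 := card_union_le B₁ B₂
    omega
  obtain ⟨v, hv⟩ := h3
  rw [mem_sdiff, mem_union, not_or] at hv
  refine ⟨v, hv.1, ?_, ?_⟩
  · by_contra h
    exact hv.2.1 (mem_filter.2 ⟨hv.1, by omega⟩)
  · by_cases hvh : v ∈ hi R X
    · by_contra h
      exact hv.2.2 (mem_filter.2 ⟨hvh, by omega⟩)
    · -- `v` has large in-degree, and most vertices are in `hi`
      have h4 := card_nO_add_nI' hT (hS hv.1)
      have h5 : 4 * (nO R X v).card < X.card := by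
        by_contra h
        exact hvh (mem_hi.2 ⟨hS hv.1, by omega⟩)
      have h6 := card_not_hi hT X (by omega)
      have h7 : nI R X v ⊆ nI R (hi R X) v ∪ (X \ hi R X) := by
        intro w hw
        rw [mem_nI] at hw
        rw [mem_union, mem_nI, mem_sdiff]
        by_cases hwh : w ∈ hi R X
        · exact Or.inl ⟨hwh, hw.2⟩
        · exact Or.inr ⟨hw.1, hwh⟩
      have h8 := card_le_card h7
      have h9 := card_union_le (nI R (hi R X) v) (X \ hi R X)
      omega

end AE15
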