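import Pool.Agent.AED.Defs
import Pool.Agent.AED.HostD

/-!
# The host lemma
-/

namespace AED

open Finset AE15
open scoped Classical

variable {V : Type*} {R : V → V → Prop}

/-- **Host lemma** -/
theorem exists_host (hT : AE32.Tour R) {X : Finset V} {N : V → Prop} {θ g : ℝ} {d : Bool} (hθ : θ ≤ 1 / 8) (hg : 0 < g)
    (hg1 : g ≤ θ) (hn : 16 ≤ g * X.card) (hS : g * X.card ≤ ((cand R θ d X N).card : ℝ)) :
    ∃ v ∈ X, N v ∧ (d = false → θ * X.card ≤ ((nO R X v).card : ℝ)) ∧ g / 8 * X.card ≤ ((nO R X v).card : ℝ) ∧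
      g / 8 * X.card ≤ (((nI R X v).filter (fun u => (X.card : ℝ) / 4 ≤ ((nO R X u).card : ℝ))).card : ℝ) := by
  have hn0 : (0 : ℝ) ≤ X.card := by positivity
  have hn1 : (128 : ℝ) ≤ X.card := by nlinarith
  set t : ℕ := ⌈g / 8 * X.card⌉₊ with ht
  have ht1 : g / 8 * X.card ≤ t := Nat.le_ceil _
  have ht2 : (t : ℝ) < g / 8 * X.card + 1 := Nat.ceil_lt_add_one (by positivity)
  have h1 : 4 * t + 2 < (cand R θ d X N).card := by
    have : ((4 * t + 2 : ℕ) : ℝ) < (cand R θ d X N).card := by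
      push_cast
      linarith
    exact_mod_cast this
  have h2 : 4 * t + 12 ≤ X.card := by
    have h3 : g * X.card ≤ 1 / 8 * X.card := mul_le_mul_of_nonneg_right (hg1.trans hθ) hn0
    have : ((4 * t + 12 : ℕ) : ℝ) ≤ X.card := by
      push_cast
      linarith
    exact_mod_cast this
  obtain ⟨v, hv, h3, h4⟩ := hostD hT (filter_subset _ _ : cand R θ d X N ⊆ X) h1 h2
  replace hv := mem_filter.1 hv
  refine ⟨v, hv.1, hv.2.1, hv.2.2, ?_, ?_⟩
  · refine ht1.trans ?_
    exact_mod_cast h3.trans (card_le_card (nO_mono (filter_subset _ _)))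
  · refine ht1.trans ?_
    have h5 : nI R (hi R X) v ⊆ (nI R X v).filter (fun u => (X.card : ℝ) / 4 ≤ ((nO R X u).card : ℝ)) := by
      intro w hw
      rw [mem_nI, mem_hi] at hw
      rw [mem_filter, mem_nI]
      refine ⟨⟨hw.1.1, hw.2⟩, ?_⟩
      have h6 : (X.card : ℝ) ≤ 4 * (nO R X w).card := by exact_mod_cast hw.1.2
      linarith
    exact_mod_cast h4.trans (card_le_card h5)

end AED
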