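import Pool.Agent.AED.Defs

/-!
# Module S: the state lemma
-/

namespace AED

open Finset AE15
open scoped Classical

variable {V : Type*} {R : V → V → Prop}

/-- a member of the family has many elements in the sample -/
private theorem rep_lower {A Q F : Finset V} {𝓕 : Finset (Finset V)} {ε μ : ℝ} (h : Rep A 𝓕 ε Q) (hF : F ∈ 𝓕)
    (hA : 0 < (A.card : ℝ)) (hFA : F ⊆ A) (hμ : μ * A.card ≤ F.card) : (μ - ε) * Q.card ≤ ((F ∩ Q).card : ℝ) := by
  have h1 := h F hF
  rw [inter_eq_left.2 hFA] at h1
  have h2 : μ ≤ (F.card : ℝ) / A.card := by rwa [le_div_iff₀ hA]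
  have h3 : (μ - ε) * Q.card ≤ ((F.card : ℝ) / A.card - ε) * Q.card :=
    mul_le_mul_of_nonneg_right (by linarith) (Nat.cast_nonneg _)
  exact h3.trans h1

/-- **State lemma**: representative sets of a host satisfy the state of a child, also inside larger sets -/
theorem state_lemma {X : Finset V} {v : V} {θ q g c ε : ℝ} {l j : ℕ} {d d' : Bool} (hv : v ∈ X) (hirr : ∀ a, ¬ R a a)
    (hc : 0 < c) (hc1 : c ≤ 1) (hθ : θ = c / 16) (hq : q = c / 64) (hl : j ≤ l) (hl1 : 1 ≤ l) (hg : g = dens θ q l d j)
    (hε : 0 < ε) (hε1 : ε ≤ g / 32) (hn : 64 ≤ g * X.card)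
    (h1 : d = false → θ * X.card ≤ ((nO R X v).card : ℝ)) (h2 : g / 8 * X.card ≤ ((nO R X v).card : ℝ))
    (h3 : g / 8 * X.card ≤ (((nI R X v).filter (fun u => (X.card : ℝ) / 4 ≤ ((nO R X u).card : ℝ))).card : ℝ)) :
    ∃ 𝓕 : Finset (Finset V), 𝓕.card ≤ 6 * X.card ^ 2 ∧ ∀ P Q : Finset V, Q ⊆ P → P ⊆ X.erase v → Q.Nonempty →
      Rep (X.erase v) 𝓕 ε Q → c * P.card ≤ Q.card → St R θ q l d' (nxt d j d') P (Adj R d' v) := by
  -- constants
  have hθ0 : 0 < θ := by rw [hθ]; positivity
  have hq0 : 0 < q := by rw [hq]; positivity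
  have hq1 : q ≤ 1 := by rw [hq]; linarith
  have hθ1 : θ ≤ 1 / 16 := by rw [hθ]; linarith
  have hg0 : 0 < g := by
    rw [hg, dens]
    split_ifs <;> positivity
  have hgθ : g ≤ θ := by
    rw [hg, dens]
    split_ifs
    · calc θ * q ^ j ≤ θ * 1 := mul_le_mul_of_nonneg_left (pow_le_one₀ hq0.le hq1) hθ0.le
        _ = θ := mul_one θ
    · calc θ * q ^ (l + 1 + j) ≤ θ * 1 := mul_le_mul_of_nonneg_left (pow_le_one₀ hq0.le hq1) hθ0.le
        _ = θ := mul_one θ
  have hXn : (1024 : ℝ) ≤ X.card := by
    have h4 : g * X.card ≤ 1 / 16 * X.card := mul_le_mul_of_nonneg_right (hgθ.trans hθ1) (Nat.cast_nonneg _)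
    linarith
  have hcA : ((X.erase v).card : ℝ) = X.card - 1 := by
    rw [card_erase_of_mem hv, Nat.cast_sub (card_pos.2 ⟨v, hv⟩), Nat.cast_one]
  have hA0 : (0 : ℝ) < (X.erase v).card := by rw [hcA]; linarith
  -- the sets
  set Fv : Finset V := (nI R X v).filter (fun u => (X.card : ℝ) / 4 ≤ ((nO R X u).card : ℝ)) with hFv
  have hOA : nO R X v ⊆ X.erase v := by
    intro u hu
    rw [mem_nO] at hu
    refine mem_erase.2 ⟨?_, hu.1⟩
    rintro rfl
    exact hirr _ hu.2
  have hFA : Fv ⊆ X.erase v := by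
    intro u hu
    rw [hFv, mem_filter, mem_nI] at hu
    refine mem_erase.2 ⟨?_, hu.1.1⟩
    rintro rfl
    exact hirr _ hu.1.2
  refine ⟨insert (nO R X v) (insert Fv ((X.erase v).image (fun u => nO R (X.erase v) u))), ?_, ?_⟩
  · have h4 := card_insert_le (nO R X v) (insert Fv ((X.erase v).image (fun u => nO R (X.erase v) u)))
    have h5 := card_insert_le Fv ((X.erase v).image (fun u => nO R (X.erase v) u))
    have h6 : ((X.erase v).image (fun u => nO R (X.erase v) u)).card ≤ X.card :=
      card_image_le.trans (card_le_card (erase_subset _ _))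
    have h7 : 1 ≤ X.card := card_pos.2 ⟨v, hv⟩
    nlinarith
  intro P Q hQP hPA hQ0 hRep hcQ
  have hP0 : (0 : ℝ) ≤ P.card := Nat.cast_nonneg _
  have hQ00 : (0 : ℝ) ≤ Q.card := Nat.cast_nonneg _
  -- the count for a large member of the family
  have hcnt : ∀ μ : ℝ, g / 8 ≤ μ → ∀ F ∈ insert (nO R X v) (insert Fv
      ((X.erase v).image (fun u => nO R (X.erase v) u))), F ⊆ X.erase v → μ * X.card ≤ F.card →
      3 / 4 * μ * c * P.card ≤ ((F ∩ Q).card : ℝ) := by
    intro μ hμ F hF hFA' hF'
    have hμ0 : 0 < μ := lt_of_lt_of_le (by positivity) hμ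
    have h4 : μ * (X.erase v).card ≤ F.card := by
      rw [hcA]
      nlinarith
    have h5 := rep_lower hRep hF hA0 hFA' h4
    have h6 : 3 / 4 * μ * (c * P.card) ≤ (μ - ε) * Q.card :=
      mul_le_mul (by linarith) hcQ (by positivity) (by linarith)
    linarith
  cases d' with
  | true =>
    have hcand : cand R θ true P (Adj R true v) = nO R P v := by
      ext u
      simp [cand, mem_nO, Adj]
    have hsub : nO R X v ∩ Q ⊆ nO R P v := by
      intro u hu
      rw [mem_inter, mem_nO] at hu
      exact mem_nO.2 ⟨hQP hu.2, hu.1.2⟩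
    have hsub' : (((nO R X v ∩ Q).card : ℕ) : ℝ) ≤ (nO R P v).card := by exact_mod_cast card_le_card hsub
    rw [St, hcand]
    refine le_trans ?_ hsub'
    cases d with
    | true =>
      have h4 := hcnt (g / 8) le_rfl (nO R X v) (mem_insert_self _ _) hOA h2
      refine le_trans ?_ h4
      have h5 : dens θ q l true (nxt true j true) = g * q := by
        rw [hg]
        simp only [dens, nxt, if_true]
        ring
      rw [h5, hq]
      have h6 : 0 ≤ g * c * P.card := by positivity
      nlinarith
    | false =>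
      have h4 := hcnt θ (by linarith) (nO R X v) (mem_insert_self _ _) hOA (h1 rfl)
      refine le_trans ?_ h4
      have h5 : dens θ q l true (nxt false j true) = θ * q := by
        simp [dens, nxt]
      rw [h5, hq]
      have h6 : 0 ≤ θ * c * P.card := by positivity
      nlinarith
  | false =>
    have h4 := hcnt (g / 8) le_rfl Fv (mem_insert_of_mem (mem_insert_self _ _)) hFA h3
    have hsub : Fv ∩ Q ⊆ cand R θ false P (Adj R false v) := by
      intro u hu
      rw [mem_inter] at hu
      have hu1 := hu.1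
      rw [hFv, mem_filter, mem_nI] at hu1
      have huA : u ∈ X.erase v := hFA hu.1
      refine mem_filter.2 ⟨hQP hu.2, by simpa [Adj] using hu1.1.2, fun _ => ?_⟩
      -- the out-degree of `u` in `P`
      have h5 : ((nO R X u).card : ℝ) ≤ (nO R (X.erase v) u).card + 1 := by
        have h6 : nO R X u ⊆ insert v (nO R (X.erase v) u) := by
          intro w hw
          rw [mem_nO] at hw
          by_cases hwv : w = v
          · exact mem_insert.2 (Or.inl hwv)
          · exact mem_insert_of_mem (mem_nO.2 ⟨mem_erase.2 ⟨hwv, hw.1⟩, hw.2⟩)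
        have h7 := (card_le_card h6).trans (card_insert_le _ _)
        exact_mod_cast h7
      have h8 : nO R (X.erase v) u ∈ insert (nO R X v) (insert Fv
          ((X.erase v).image (fun u => nO R (X.erase v) u))) :=
        mem_insert_of_mem (mem_insert_of_mem (mem_image_of_mem _ huA))
      have h9 : (1 / 4 - 1 / 64 : ℝ) * (X.erase v).card ≤ (nO R (X.erase v) u).card := by
        rw [hcA]
        linarith [hu1.2]
      have h10 := rep_lower hRep h8 hA0 (filter_subset _ _) h9
      have h11 : nO R (X.erase v) u ∩ Q ⊆ nO R P u := by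
        intro w hw
        rw [mem_inter, mem_nO] at hw
        exact mem_nO.2 ⟨hQP hw.2, hw.1.2⟩
      have h12 : (((nO R (X.erase v) u ∩ Q).card : ℕ) : ℝ) ≤ (nO R P u).card := by
        exact_mod_cast card_le_card h11
      refine le_trans ?_ (h10.trans h12)
      have h13 : θ * P.card = 1 / 16 * (c * P.card) := by rw [hθ]; ring
      rw [h13]
      exact mul_le_mul (by linarith) hcQ (by positivity) (by linarith)
    have hsub' : (((Fv ∩ Q).card : ℕ) : ℝ) ≤ (cand R θ false P (Adj R false v)).card := by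
      exact_mod_cast card_le_card hsub
    rw [St]
    refine le_trans ?_ (h4.trans hsub')
    have h5 : dens θ q l false (nxt d j false) ≤ g * q := by
      cases d with
      | true =>
        rw [hg]
        simp only [dens, nxt]
        have h6 : q ^ (l + 1 + 1) ≤ q ^ (j + 1) := pow_le_pow_of_le_one hq0.le hq1 (by omega)
        have h7 : θ * q ^ (l + 1 + 1) ≤ θ * q ^ (j + 1) := mul_le_mul_of_nonneg_left h6 hθ0.le
        simpa [pow_succ, mul_assoc] using h7
      | false =>
        rw [hg]
        simp only [dens, nxt, if_true, Bool.false_eq_true, if_false]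
        exact le_of_eq (by ring)
    have h6 : dens θ q l false (nxt d j false) * P.card ≤ g * q * P.card := mul_le_mul_of_nonneg_right h5 hP0
    refine h6.trans ?_
    rw [hq]
    have h7 : 0 ≤ g * c * P.card := by positivity
    nlinarith

end AED
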