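import Pool.Agent.AED.Trees
import Pool.Agent.AED.Host
import Pool.Agent.AED.State

/-!
# Oriented trees without long directed paths: the step lemma
-/

namespace AED

open Finset AE15
open scoped Classical

theorem embL_of_fin {V : Type*} {R : V → V → Prop} {v : V} : ∀ (L : List (Bool × Fd)) (S : Fin L.length → Finset V),
    (∀ i, ∃ x A, Adj R (L.get i).1 v x ∧ x ∉ A ∧ S i = insert x A ∧ Emb R (L.get i).2 x A) →
    (∀ i j, i ≠ j → Disjoint (S i) (S j)) → EmbL R v L (univ.biUnion S)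
  | [], S, _, _ => by
    show univ.biUnion S = ∅
    apply Finset.eq_empty_of_forall_notMem
    intro x hx
    obtain ⟨i, _⟩ := mem_biUnion.1 hx
    exact i.elim0
  | p :: L, S, h, hd => by
    have ih := embL_of_fin L (fun i => S i.succ) (fun i => h i.succ) (fun i j hij =>
      hd _ _ (fun e => hij (Fin.succ_injective _ e)))
    refine ⟨S 0, univ.biUnion (fun i : Fin L.length => S i.succ), ?_, ?_, h 0, ih⟩
    · rw [disjoint_biUnion_right]
      exact fun i _ => hd _ _ (Fin.succ_ne_zero i).symm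
    · ext x
      simp only [mem_union, mem_biUnion, mem_univ, true_and]
      constructor
      · rintro ⟨i, hi⟩
        refine Fin.cases ?_ ?_ i hi
        · intro h1
          exact Or.inl h1
        · intro j h1
          exact Or.inr ⟨j, h1⟩
      · rintro (h1 | ⟨j, h1⟩)
        · exact ⟨0, h1⟩
        · exact ⟨j.succ, h1⟩

theorem tsz_eq_sum (L : List (Bool × Fd)) : tsz L = ∑ i : Fin L.length, ((L.get i).2.size + 1) := by
  rw [tsz, ← List.sum_ofFn]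
  congr 1
  apply List.ext_getElem
  · simp
  · intro i h8 h9
    simp

theorem dens_pos {θ q : ℝ} (hθ : 0 < θ) (hq : 0 < q) (l : ℕ) (d : Bool) (j : ℕ) : 0 < dens θ q l d j := by
  unfold dens
  split_ifs <;> positivity

theorem dens_le {θ q : ℝ} (hθ : 0 < θ) (hq : 0 < q) (hq1 : q ≤ 1) (l : ℕ) (d : Bool) (j : ℕ) :
    dens θ q l d j ≤ θ := by
  unfold dens
  split_ifs
  · exact mul_le_of_le_one_right hθ.le (pow_le_one₀ hq.le hq1)
  · exact mul_le_of_le_one_right hθ.le (pow_le_one₀ hq.le hq1)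

theorem le_dens {θ q : ℝ} (hθ : 0 < θ) (hq : 0 < q) (hq1 : q ≤ 1) {l : ℕ} (d : Bool) {j : ℕ} (hj : j ≤ l) :
    θ * q ^ (2 * l + 2) ≤ dens θ q l d j := by
  unfold dens
  split_ifs
  · exact mul_le_mul_of_nonneg_left (pow_le_pow_of_le_one hq.le hq1 (by omega)) hθ.le
  · exact mul_le_mul_of_nonneg_left (pow_le_pow_of_le_one hq.le hq1 (by omega)) hθ.le

theorem Fd.size_mem {F : Fd} {p : Bool × Fd} (h : p ∈ F.trees) : p.2.size < F.size := by
  rw [F.size_eq]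
  have h1 : p.2.size + 1 ∈ F.trees.map (fun p => p.2.size + 1) := List.mem_map.2 ⟨p, h, rfl⟩
  have := List.single_le_sum (fun _ _ => Nat.zero_le _) _ h1
  omega

theorem step (b l : ℕ) (hb : 1 ≤ b) (hl : 1 ≤ l) : ∃ (θ q γ : ℝ) (n₀ A : ℕ), 0 < θ ∧ θ ≤ 1 ∧ 0 < q ∧ q ≤ 1 ∧ 0 < γ ∧
    ∀ {V : Type} {R : V → V → Prop}, AE32.Tour R → ∀ (K C K' C' : ℝ), 0 ≤ K → 1 ≤ K' → K ≤ (1 + γ) * K' →
      0 ≤ C → 0 ≤ C' → ∀ (d : Bool) (j : ℕ) (c : Fd), j ≤ l → c.len ≤ b → c.Deg b → c.Run l d j →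
        (∀ (d' : Bool) (j' : ℕ) (c' : Fd), j' ≤ l → c'.len ≤ b → c'.Deg b → c'.Run l d' j' → c'.size < c.size →
          EE R θ q l K C d' j' c' ∧ EE R θ q l K' C' d' j' c') →
        ∀ (X : Finset V) (N : V → Prop), K' * (c.size + 1) + C' ≤ X.card → n₀ ≤ X.card → A * C ≤ X.card →
          St R θ q l d j X N → In R c N X := by
  have hb0 : (1 : ℝ) ≤ b := by exact_mod_cast hb
  obtain ⟨c₁, hc₁⟩ : ∃ c₁ : ℝ, c₁ = 1 / (8 * (b : ℝ)) := ⟨_, rfl⟩
  have hc₁b : c₁ * b = 1 / 8 := by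
    rw [hc₁]
    field_simp
  have hc₁0 : 0 < c₁ := by rw [hc₁]; positivity
  have hc₁1 : c₁ ≤ 1 / 8 := by
    rw [hc₁]
    exact one_div_le_one_div_of_le (by norm_num) (by linarith)
  obtain ⟨θ, hθ⟩ : ∃ θ : ℝ, θ = c₁ / 16 := ⟨_, rfl⟩
  obtain ⟨q, hq⟩ : ∃ q : ℝ, q = c₁ / 64 := ⟨_, rfl⟩
  have hθ0 : 0 < θ := by rw [hθ]; positivity
  have hq0 : 0 < q := by rw [hq]; positivity
  have hθ1 : θ ≤ 1 / 8 := by rw [hθ]; linarith
  have hq1 : q ≤ 1 := by rw [hq]; linarith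
  obtain ⟨g₀, hg₀⟩ : ∃ g₀ : ℝ, g₀ = θ * q ^ (2 * l + 2) := ⟨_, rfl⟩
  have hg₀0 : 0 < g₀ := by rw [hg₀]; positivity
  obtain ⟨ε, hε⟩ : ∃ ε : ℝ, ε = g₀ / 32 := ⟨_, rfl⟩
  have hε0 : 0 < ε := by rw [hε]; positivity
  have hg₀1 : g₀ ≤ θ := by
    rw [hg₀]
    exact mul_le_of_le_one_right hθ0.le (pow_le_one₀ hq0.le hq1)
  have hε1 : ε ≤ 1 := by rw [hε]; linarith
  obtain ⟨n₁, hn₁⟩ := exists_pieces hε0 hε1 hc₁0 b
  obtain ⟨n₂, hn₂⟩ := exists_nat_ge (64 / g₀)
  refine ⟨θ, q, 1 / (8 * (b : ℝ)), n₁ + n₂ + 2 * b + 100, 8 * b ^ 2, hθ0, by linarith, hq0, hq1, by positivity, ?_⟩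
  intro V R hT K C K' C' hK hK' hKK hC hC' d j c hj hlen hdeg hrun ih X N hX hn₀ hAC hSt
  rw [← hc₁] at hKK
  obtain ⟨n, hnd⟩ : ∃ n : ℝ, n = (X.card : ℝ) := ⟨_, rfl⟩
  have hXn₂ : (n₂ : ℝ) ≤ n := by rw [hnd]; exact_mod_cast (by omega : n₂ ≤ X.card)
  have hX2b : 2 * (b : ℝ) + 100 ≤ n := by
    rw [hnd]
    exact_mod_cast (by omega : 2 * b + 100 ≤ X.card)
  have hn0 : 0 < n := by linarith
  have hg64 : 64 ≤ g₀ * n := by
    rw [div_le_iff₀ hg₀0] at hn₂
    have := mul_le_mul_of_nonneg_right hXn₂ hg₀0.le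
    linarith
  have hgpos := dens_pos hθ0 hq0 l d j
  have hgle := dens_le hθ0 hq0 hq1 l d j
  have hgge := le_dens hθ0 hq0 hq1 d hj
  rw [← hg₀] at hgge
  have hg64' : 64 ≤ dens θ q l d j * n := by
    have := mul_le_mul_of_nonneg_right hgge hn0.le
    linarith
  obtain ⟨v, hvX, hNv, hv1, hv2, hv3⟩ := exists_host hT hθ1 hgpos hgle (by rw [← hnd]; linarith) hSt
  by_cases hc : c = .nil
  · subst hc
    exact ⟨v, hvX, ∅, by simp, by simp, hNv, rfl⟩
  obtain ⟨a, L, hperm, hsz⟩ := exists_large b c hc hlen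
  have hdeg' := (Fd.deg_iff b c).1 hdeg
  have hrun' := (Fd.run_iff l hl d j c).1 hrun
  have hmem : ∀ p ∈ a :: L, p.2.len ≤ b ∧ p.2.Deg b ∧ nxt d j p.1 ≤ l ∧ p.2.Run l p.1 (nxt d j p.1) ∧
      p.2.size < c.size := by
    intro p hp
    have h1 := hperm.mem_iff.2 hp
    exact ⟨(hdeg' p h1).1, (hdeg' p h1).2, (hrun' p h1).1, (hrun' p h1).2, Fd.size_mem h1⟩
  have hLlen : L.length + 1 ≤ b := by
    have h1 := hperm.length_eq
    rw [← Fd.len_eq] at h1
    simp only [List.length_cons] at h1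
    omega
  have hsize : c.size = (a.2.size + 1) + tsz L := by
    rw [Fd.size_eq, (hperm.map _).sum_eq]
    simp [tsz]
  -- the family
  have hfam : ∀ d' : Bool, ∃ 𝓕 : Finset (Finset V), 𝓕.card ≤ 6 * X.card ^ 2 ∧ ∀ P Q : Finset V, Q ⊆ P →
      P ⊆ X.erase v → Q.Nonempty → Rep (X.erase v) 𝓕 ε Q → c₁ * P.card ≤ Q.card →
      St R θ q l d' (nxt d j d') P (Adj R d' v) := by
    intro d'
    exact state_lemma hvX hT.irr hc₁0 (by linarith) hθ hq hj hl rfl hε0 (by rw [hε]; linarith)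
      (by rw [← hnd]; exact hg64') hv1 hv2 hv3
  obtain ⟨𝓕t, h𝓕t, hSt_t⟩ := hfam true
  obtain ⟨𝓕f, h𝓕f, hSt_f⟩ := hfam false
  have hAcard : (X.erase v).card = X.card - 1 := card_erase_of_mem hvX
  have hX100 : 100 ≤ X.card := by omega
  have h𝓕 : (𝓕t ∪ 𝓕f).card ≤ (X.erase v).card ^ 5 := by
    refine (card_union_le _ _).trans ?_
    rw [hAcard]
    obtain ⟨k, hk⟩ : ∃ k, X.card = k + 1 := ⟨X.card - 1, by omega⟩
    rw [hk] at h𝓕t h𝓕f hX100 ⊢
    rw [Nat.add_sub_cancel]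
    have hk99 : 99 ≤ k := by omega
    have h1 : (k + 1) ^ 2 ≤ 2 * k ^ 2 := by nlinarith
    have h2 : 12 * (k + 1) ^ 2 ≤ 24 * k ^ 2 := by omega
    have h3 : 24 * k ^ 2 ≤ k ^ 5 := by
      have h4 : 24 ≤ k ^ 3 := by
        calc 24 ≤ 99 ^ 3 := by norm_num
          _ ≤ k ^ 3 := Nat.pow_le_pow_left hk99 3
      calc 24 * k ^ 2 ≤ k ^ 3 * k ^ 2 := Nat.mul_le_mul_right _ h4
        _ = k ^ 5 := by ring
    omega
  have hRt : ∀ Q : Finset V, Rep (X.erase v) (𝓕t ∪ 𝓕f) ε Q → ∀ d' : Bool, ∀ P : Finset V, Q ⊆ P → P ⊆ X.erase v →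
      Q.Nonempty → c₁ * P.card ≤ Q.card → St R θ q l d' (nxt d j d') P (Adj R d' v) := by
    intro Q hQ d' P h1 h2 h3 h4
    cases d' with
    | true => exact hSt_t P Q h1 h2 h3 (fun F hF => hQ F (mem_union_left _ hF)) h4
    | false => exact hSt_f P Q h1 h2 h3 (fun F hF => hQ F (mem_union_right _ hF)) h4
  -- the pieces
  have htszr : ((tsz L : ℕ) : ℝ) = ∑ i : Fin L.length, (((L.get i).2.size : ℝ) + 1) := by
    rw [tsz_eq_sum]
    push_cast
    rfl
  have hszr : (c.size : ℝ) = (a.2.size + 1) + tsz L := by exact_mod_cast hsize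
  have hszr2 : (c.size : ℝ) ≤ b * (a.2.size + 1) := by exact_mod_cast hsz
  have hsum : ∑ i : Fin L.length, (K * ((L.get i).2.size + 1) + C) ≤ (1 - 2 * c₁) * (X.erase v).card := by
    rw [Finset.sum_add_distrib, ← Finset.mul_sum, ← htszr, Finset.sum_const, card_univ, Fintype.card_fin, nsmul_eq_mul]
    have h1 : ((X.erase v).card : ℝ) = n - 1 := by
      rw [hAcard, Nat.cast_sub (by omega), ← hnd]
      norm_num
    rw [h1]
    -- tsz L ≤ (1 - 8 c₁) c.size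
    have h2 : (tsz L : ℝ) ≤ (1 - 8 * c₁) * c.size := by
      have h3 : 8 * c₁ * c.size ≤ a.2.size + 1 := by
        calc 8 * c₁ * c.size ≤ 8 * c₁ * (b * (a.2.size + 1)) := mul_le_mul_of_nonneg_left hszr2 (by positivity)
          _ = 8 * (c₁ * b) * (a.2.size + 1) := by ring
          _ = a.2.size + 1 := by rw [hc₁b]; ring
      linarith
    have h3 : K' * c.size ≤ n := by
      rw [hnd]
      nlinarith
    have h4 : K * (tsz L : ℝ) ≤ (1 + c₁) * (1 - 8 * c₁) * n := by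
      have h5 : (0 : ℝ) ≤ tsz L := by positivity
      have h6 : (0 : ℝ) ≤ 1 - 8 * c₁ := by linarith
      calc K * (tsz L : ℝ) ≤ (1 + c₁) * K' * tsz L := mul_le_mul_of_nonneg_right hKK h5
        _ ≤ (1 + c₁) * K' * ((1 - 8 * c₁) * c.size) := mul_le_mul_of_nonneg_left h2 (by positivity)
        _ = (1 + c₁) * (1 - 8 * c₁) * (K' * c.size) := by ring
        _ ≤ (1 + c₁) * (1 - 8 * c₁) * n := mul_le_mul_of_nonneg_left h3 (by positivity)
    have h5 : (L.length : ℝ) * C ≤ c₁ * n := by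
      have h6 : (L.length : ℝ) ≤ b := by exact_mod_cast (by omega : L.length ≤ b)
      have h7 : (L.length : ℝ) * C ≤ b * C := mul_le_mul_of_nonneg_right h6 hC
      push_cast at hAC
      rw [← hnd] at hAC
      have h8 : c₁ * (8 * b ^ 2 * C) ≤ c₁ * n := mul_le_mul_of_nonneg_left hAC hc₁0.le
      have h9 : c₁ * (8 * b ^ 2 * C) = 8 * (c₁ * b) * (b * C) := by ring
      rw [h9, hc₁b] at h8
      linarith
    have h6 : (1 : ℝ) ≤ 4 * c₁ * n := by
      have h7 : 4 * c₁ * (2 * b + 100) ≤ 4 * c₁ * n := mul_le_mul_of_nonneg_left hX2b (by positivity)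
      have h8 : 4 * c₁ * (2 * b + 100) = 8 * (c₁ * b) + 400 * c₁ := by ring
      rw [h8, hc₁b] at h7
      linarith
    nlinarith
  obtain ⟨P, Q, hPA, hPne, hPd, hPQ, hQA, hPs, hPR, hQc, hQR⟩ := hn₁ (X.erase v) (𝓕t ∪ 𝓕f) (by rw [hAcard]; omega) h𝓕
    L.length (fun i => K * ((L.get i).2.size + 1) + C) (by omega) (fun i => by positivity) hsum
  have key : ∀ i : Fin L.length, ∃ S ⊆ P i, ∃ x A, Adj R (L.get i).1 v x ∧ x ∉ A ∧ S = insert x A ∧
      Emb R (L.get i).2 x A := by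
    intro i
    obtain ⟨h1, h2, h3, h4, h5⟩ := hmem (L.get i) (List.mem_cons_of_mem _ (List.get_mem L i))
    have h6 := hRt (P i) (hPR i) (L.get i).1 (P i) (Subset.refl _) (hPA i) (hPne i) (by
      have : (0 : ℝ) ≤ (P i).card := by positivity
      nlinarith)
    obtain ⟨x, hx, A, hA, hxA, hadj, hE⟩ := (ih _ _ _ h3 h1 h2 h4 h5).1 (P i) _ (hPs i) h6
    exact ⟨insert x A, insert_subset hx hA, x, A, hadj, hxA, rfl, hE⟩
  choose S hSP hSE using key
  have hSd : ∀ i j, i ≠ j → Disjoint (S i) (S j) := fun i j hij =>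
    disjoint_of_subset_left (hSP i) (disjoint_of_subset_right (hSP j) (hPd i j hij))
  have hL := embL_of_fin L S hSE hSd
  set U := univ.biUnion S with hU
  have hUA : U ⊆ X.erase v := by
    rw [hU, biUnion_subset]
    exact fun i _ => (hSP i).trans (hPA i)
  have hUQ : Disjoint U Q := by
    rw [hU, disjoint_biUnion_left]
    exact fun i _ => disjoint_of_subset_left (hSP i) (hPQ i)
  have hUc : U.card = tsz L := hL.card
  -- the final item
  have hX' : (X.erase v \ U) ⊆ X.erase v := sdiff_subset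
  have hQX' : Q ⊆ X.erase v \ U := by
    intro x hx
    rw [mem_sdiff]
    exact ⟨hQA hx, fun h => Finset.disjoint_left.1 hUQ h hx⟩
  have hX'c : ((X.erase v \ U).card : ℝ) = n - 1 - tsz L := by
    rw [card_sdiff_of_subset hUA, Nat.cast_sub (card_le_card hUA), hUc, hAcard, Nat.cast_sub (by omega), ← hnd]
    norm_num
  have hQne : Q.Nonempty := by
    rw [← card_pos]
    have h1 : (0 : ℝ) < (X.erase v).card := by
      rw [hAcard]
      exact_mod_cast (by omega : 0 < X.card - 1)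
    have h2 : (0 : ℝ) < Q.card := lt_of_lt_of_le (by positivity) hQc
    exact_mod_cast h2
  obtain ⟨h1, h2, h3, h4, h5⟩ := hmem a List.mem_cons_self
  have hStF := hRt Q hQR a.1 (X.erase v \ U) hQX' hX' hQne (by
    refine le_trans (mul_le_mul_of_nonneg_left ?_ hc₁0.le) hQc
    exact_mod_cast card_le_card hX')
  obtain ⟨x, hx, A, hA, hxA, hadj, hE⟩ := (ih _ _ _ h3 h1 h2 h4 h5).2 (X.erase v \ U) _ (by
    rw [hX'c]
    rw [← hnd, hszr] at hX
    have h6 : (0 : ℝ) ≤ tsz L := by positivity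
    nlinarith) hStF
  have hEL : EmbL R v (a :: L) (insert x A ∪ U) := by
    refine ⟨insert x A, U, ?_, rfl, ⟨x, A, hadj, hxA, rfl, hE⟩, hL⟩
    rw [disjoint_comm]
    exact disjoint_of_subset_right (insert_subset hx hA) disjoint_sdiff
  have hEc := (emb_iff c v (insert x A ∪ U)).2 (hEL.perm hperm.symm)
  have hsub : insert x A ∪ U ⊆ X.erase v := union_subset ((insert_subset hx hA).trans hX') hUA
  exact ⟨v, hvX, insert x A ∪ U, hsub.trans (erase_subset _ _), fun h => (notMem_erase v X) (hsub h), hNv, hEc⟩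

end AED
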