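import Pool.Agent.AED.Defs

/-!
# Module T: trees and lists of trees
-/

namespace AED

open Finset AE15
open scoped Classical

variable {V : Type*} {R : V → V → Prop}

theorem Fd.len_eq (F : Fd) : F.len = F.trees.length := by
  induction F with
  | nil => rfl
  | node d c s _ ihs => simp [Fd.len, Fd.trees, ihs]

theorem Fd.size_eq (F : Fd) : F.size = (F.trees.map (fun p => p.2.size + 1)).sum := by
  induction F with
  | nil => rfl
  | node d c s _ ihs =>
    simp only [Fd.size, Fd.trees, List.map_cons, List.sum_cons, ← ihs]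
    omega

theorem Fd.deg_iff (b : ℕ) (F : Fd) : F.Deg b ↔ ∀ p ∈ F.trees, p.2.len ≤ b ∧ p.2.Deg b := by
  induction F with
  | nil => simp [Fd.Deg, Fd.trees]
  | node d c s _ ihs => simp only [Fd.Deg, Fd.trees, List.mem_cons, forall_eq_or_imp, ihs, and_assoc]

theorem Fd.run_iff (l : ℕ) (hl : 1 ≤ l) (d : Bool) (j : ℕ) (F : Fd) :
    F.Run l d j ↔ ∀ p ∈ F.trees, nxt d j p.1 ≤ l ∧ p.2.Run l p.1 (nxt d j p.1) := by
  induction F with
  | nil => simp [Fd.Run, Fd.trees]
  | node d' c s _ ihs =>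
    simp only [Fd.Run, Fd.trees, List.mem_cons, forall_eq_or_imp, ihs]
    apply and_congr_left
    intro _
    by_cases h : d' = d
    · subst h
      simp [nxt]
    · simp [nxt, h, hl]

/-- number of vertices of a list of trees -/
def tsz (L : List (Bool × Fd)) : ℕ := (L.map (fun p => p.2.size + 1)).sum

theorem tsz_nil : tsz [] = 0 := rfl

theorem tsz_cons (p : Bool × Fd) (L : List (Bool × Fd)) : tsz (p :: L) = p.2.size + 1 + tsz L := by
  simp [tsz]

/-- the trees of the list hang on `v`, disjointly, and cover `S` -/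
def EmbL (R : V → V → Prop) (v : V) : List (Bool × Fd) → Finset V → Prop
  | [], S => S = ∅
  | p :: L, S => ∃ S₁ S₂, Disjoint S₁ S₂ ∧ S = S₁ ∪ S₂ ∧ (∃ x A, Adj R p.1 v x ∧ x ∉ A ∧ S₁ = insert x A ∧ Emb R p.2 x A) ∧
      EmbL R v L S₂

theorem emb_iff (F : Fd) (v : V) (S : Finset V) : Emb R F v S ↔ EmbL R v F.trees S := by
  induction F generalizing S with
  | nil => exact Iff.rfl
  | node d c s _ ihs =>
    constructor
    · rintro ⟨x, A, B, h1, h2, h3, h4, rfl, h6, h7⟩
      refine ⟨insert x A, B, disjoint_insert_left.2 ⟨h3, h4⟩, ?_, ⟨x, A, h1, h2, rfl, h6⟩, (ihs B).1 h7⟩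
      rw [insert_union]
    · rintro ⟨S₁, B, h1, rfl, ⟨x, A, h4, h5, rfl, h9⟩, h3⟩
      rw [disjoint_insert_left] at h1
      refine ⟨x, A, B, h4, h5, h1.1, h1.2, ?_, h9, (ihs B).2 h3⟩
      rw [insert_union]

theorem EmbL.perm {v : V} {L₁ L₂ : List (Bool × Fd)} (hL : L₁.Perm L₂) {S : Finset V} (h : EmbL R v L₁ S) :
    EmbL R v L₂ S := by
  induction hL generalizing S with
  | nil => exact h
  | cons p _ ih =>
    obtain ⟨B₁, B₂, h1, rfl, h2, h3⟩ := h
    exact ⟨B₁, B₂, h1, rfl, h2, ih h3⟩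
  | swap p q L =>
    obtain ⟨B₁, B₂, h1, rfl, h2, B₃, B₄, h3, rfl, h4, h5⟩ := h
    rw [disjoint_union_right] at h1
    refine ⟨B₃, B₁ ∪ B₄, disjoint_union_right.2 ⟨h1.1.symm, h3⟩, ?_, h4, B₁, B₄, h1.2, rfl, h2, h5⟩
    rw [← union_assoc, ← union_assoc, union_comm B₁ B₃]
  | trans _ _ ih1 ih2 => exact ih2 (ih1 h)

theorem Emb.card {F : Fd} {v : V} {S : Finset V} (h : Emb R F v S) : S.card = F.size := by
  induction F generalizing v S with
  | nil => rw [show S = ∅ from h]; rfl
  | node d c s ihc ihs =>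
    obtain ⟨x, A, B, h1, h2, h3, h4, rfl, h6, h7⟩ := h
    rw [card_insert_of_notMem (by simp [h2, h3]), card_union_of_disjoint h4, ihc h6, ihs h7]
    rfl

theorem EmbL.card {v : V} {L : List (Bool × Fd)} {S : Finset V} (h : EmbL R v L S) : S.card = tsz L := by
  induction L generalizing S with
  | nil => rw [show S = ∅ from h]; rfl
  | cons p L ih =>
    obtain ⟨A₁, A₂, h1, rfl, ⟨x, A, h4, h5, rfl, h6⟩, h3⟩ := h
    rw [card_union_of_disjoint h1, card_insert_of_notMem h5, h6.card, ih h3, tsz_cons]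

theorem exists_large (b : ℕ) (F : Fd) (hF : F ≠ .nil) (hb : F.len ≤ b) :
    ∃ a L, F.trees.Perm (a :: L) ∧ F.size ≤ b * (a.2.size + 1) := by
  have hne : F.trees.toFinset.Nonempty := by
    cases F with
    | nil => exact absurd rfl hF
    | node d c s => exact ⟨(d, c), by simp [Fd.trees]⟩
  obtain ⟨a, ha, hmax⟩ := exists_max_image F.trees.toFinset (fun p => p.2.size) hne
  rw [List.mem_toFinset] at ha
  refine ⟨a, F.trees.erase a, List.perm_cons_erase ha, ?_⟩
  rw [Fd.size_eq]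
  have h1 : (F.trees.map (fun p => p.2.size + 1)).sum ≤ (F.trees.map (fun p => p.2.size + 1)).length • (a.2.size + 1) := by
    apply List.sum_le_card_nsmul
    intro x hx
    obtain ⟨c, hc, rfl⟩ := List.mem_map.1 hx
    have := hmax c (List.mem_toFinset.2 hc)
    omega
  rw [List.length_map, smul_eq_mul] at h1
  rw [Fd.len_eq] at hb
  exact h1.trans (Nat.mul_le_mul_right _ hb)

end AED
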